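import Pool.Agent.Q54.TK.StmA

/-!
# Project TK, part B: perfect matchings in nearly complete `k`-graphs, and the local lemma
-/

set_option autoImplicit false

namespace Pool.Agent.Q54.TK

open Finset

section
variable {V : Type} [DecidableEq V]

/-- the new edge number `i`: the uncovered vertex `u i` and, from each edge `f j`, `j ≠ i`, the vertex
number `i - j` -/
def gi {k : ℕ} [NeZero k] (u : Fin k → V) (f : Fin k → Finset V) (en : Finset V → Fin k → V)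
    (i : Fin k) : Finset V :=
  insert (u i) ((univ.erase i).image (fun j => en (f j) (i - j)))

/-- the last new edge: the vertices number `0` of the edges `f j` -/
def gs {k : ℕ} [NeZero k] (f : Fin k → Finset V) (en : Finset V → Fin k → V) : Finset V :=
  univ.image (fun j => en (f j) 0)

end

/-- PM1 (augmentation). Remove the `k` edges `f j` and add the `k + 1` edges `gi i`, `gs`: they are
pairwise disjoint (in the edge `f j` the vertex number `m ≠ 0` is used only by `gi` for `i = j + m`, the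
vertex number `0` only by `gs`) and disjoint from the other edges of `M`. -/
def S_PM1 : Prop := ∀ (V : Type) [Fintype V] [DecidableEq V] (F M : Finset (Finset V)) (X : Finset V)
  (k : ℕ) [NeZero k] (u : Fin k → V) (f : Fin k → Finset V) (en : Finset V → Fin k → V),
  2 ≤ k → UF k F → M ⊆ F → PD M → (∀ e ∈ M, e ⊆ X) → Function.Injective u → (∀ i, u i ∈ X) →
  (∀ i, ∀ e ∈ M, u i ∉ e) → Function.Injective f → (∀ j, f j ∈ M) →
  (∀ e ∈ M, Function.Injective (en e) ∧ ∀ m, en e m ∈ e) → (∀ i, gi u f en i ∈ F) → gs f en ∈ F →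
  ∃ M' : Finset (Finset V), M' ⊆ F ∧ PD M' ∧ (∀ e ∈ M', e ⊆ X) ∧ M'.card = M.card + 1

/-- PM2 (counting). Among the `|M|^k` functions `f : Fin k → M`: those with `f` not injective are at most
`k^2 |M|^(k-1)`; those with `gi u f en i ∉ F`: the other values `f j` (`j ≠ i`), if different, are
determined up to `(k-1)!` by the set `{en (f j) (i-j)}` (each vertex lies in only one edge of `M`), a
missing set at `u i`, so at most `(k-1)! ρ |X|^(k-1) |M|`; for `gs`: fix `f 0`, whose vertex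
`en (f 0) 0 ∈ X`; again at most `(k-1)! ρ |X|^(k-1) |M|`. With `|X| ≤ 2 k |M|` the sum is less than
`|M|^k` if `(k+1)(k-1)! ρ (2k)^(k-1) ≤ 1/2` and `|M| > 2 k^2`. -/
def S_PM2 : Prop := ∀ k : ℕ, 2 ≤ k → ∀ [NeZero k], ∃ ρ : ℝ, 0 < ρ ∧ ∃ m0 : ℕ,
  ∀ (V : Type) [Fintype V] [DecidableEq V] (F M : Finset (Finset V)) (X : Finset V)
    (u : Fin k → V) (en : Finset V → Fin k → V), UF k F → M ⊆ F → PD M → (∀ e ∈ M, e ⊆ X) →
  Function.Injective u → (∀ i, u i ∈ X) → (∀ i, ∀ e ∈ M, u i ∉ e) →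
  (∀ e ∈ M, Function.Injective (en e) ∧ ∀ m, en e m ∈ e) → m0 ≤ M.card → X.card ≤ 2 * k * M.card →
  (∀ v ∈ X, (ms k F X v : ℝ) ≤ ρ * (X.card : ℝ) ^ (k - 1)) →
  ∃ f : Fin k → Finset V, Function.Injective f ∧ (∀ j, f j ∈ M) ∧ (∀ i, gi u f en i ∈ F) ∧
    gs f en ∈ F

/-- PMU (perfect matchings). Let `M` be a largest matching of edges inside `X`, `U` the uncovered part
of `X`. If `|M| < |X|/k` then `|U| ≥ k`. If `|X| > 2 k |M|` then `|U| > |X|/2`; for `v ∈ U` there are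
`C(|U|-1, k-1) > ρ |X|^(k-1)` sets in `U.erase v`, so one of them gives an edge inside `U`, against the
choice of `M`. Otherwise `PM2` (`k` uncovered vertices; enumerations `en` of the edges) and `PM1`. Finally
`k |M| ≤ |X|` gives equality. -/
def S_PMU : Prop := ∀ k : ℕ, 2 ≤ k → ∃ ρ : ℝ, 0 < ρ ∧ ∃ m0 : ℕ,
  ∀ (V : Type) [Fintype V] [DecidableEq V] (F : Finset (Finset V)) (X : Finset V), UF k F →
  m0 ≤ X.card → (∀ v ∈ X, (ms k F X v : ℝ) ≤ ρ * (X.card : ℝ) ^ (k - 1)) →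
  ∃ M : Finset (Finset V), M ⊆ F ∧ PD M ∧ (∀ e ∈ M, e ⊆ X) ∧ M.card = X.card / k

/-- VST (the core). The `k`-subsets of `P` which are not edges are at most
`C((1+ε)ks, k) - C(ks+k-1, k) + ε s^k ≤ ε1 s^k`, and `|P| ≥ (1-ε2) k s` since `C(|P|,k) ≥ |F| - ε s^k`.
Let `X` be the set of `v ∈ P` which lie in at most `√ε1 s^(k-1)` missing `k`-subsets of `P`; then
`|P \ X| √ε1 s^(k-1) ≤ k ε1 s^k`. -/
def S_VST : Prop := ∀ k : ℕ, 2 ≤ k → ∀ δ ρ : ℝ, 0 < δ → 0 < ρ → ∃ ε : ℝ, 0 < ε ∧ ∃ s0 : ℕ,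
  ∀ s : ℕ, s0 ≤ s → ∀ (V : Type) [Fintype V] [DecidableEq V] (F : Finset (Finset V)) (P : Finset V),
  UF k F → (k * s + k - 1).choose k ≤ F.card → (P.card : ℝ) ≤ (1 + ε) * (k * s) →
  ((F.filter (fun e => ¬ e ⊆ P)).card : ℝ) ≤ ε * (s : ℝ) ^ k →
  ∃ X : Finset V, (1 - δ) * (k * s) ≤ (X.card : ℝ) ∧
    ∀ v ∈ X, (ms k F X v : ℝ) ≤ ρ * ((k : ℝ) * s) ^ (k - 1)

/-- EXT (extension of matchings). Let `L` be a matching of edges not contained in `X`. First let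
`4 k |L| ≤ s`: `Y = X \ ⋃ L` has at least `(1-δ) k s - k |L| ≥ k s/2` vertices, and
`ms k F Y v ≤ ms k F X v ≤ ρ (k s)^(k-1) ≤ ρ 2^(k-1) |Y|^(k-1)`; `PMU` gives `|Y|/k` disjoint edges in `Y`,
so `|L| + |Y|/k ≤ s`, and `|Y| = |X| - ∑ (k - |e \ X|)`, so `(|X| + ∑ |e \ X|)/k ≤ s` (floor). In
particular (`L = ∅`) `|X| ≤ k s + k - 1`; let `j = k s + k - 1 - |X| ≤ δ k s + k`, `4 k (j + 1) ≤ s`. If
`4 k |L| > s` take `j + 1` edges of `L`: their sum `∑ |e \ X| ≥ j + 1`, contradiction. -/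
def S_EXT : Prop := ∀ k : ℕ, 2 ≤ k → ∃ δ ρ : ℝ, 0 < δ ∧ 0 < ρ ∧ ∃ s0 : ℕ, ∀ s : ℕ, s0 ≤ s →
  ∀ (V : Type) [Fintype V] [DecidableEq V] (F : Finset (Finset V)) (X : Finset V), Hyp k s F →
  (1 - δ) * (k * s) ≤ (X.card : ℝ) → (∀ v ∈ X, (ms k F X v : ℝ) ≤ ρ * ((k : ℝ) * s) ^ (k - 1)) →
  Lc k s F X

/-- LT (traces). For `T ⊆ V` with `|T| ≤ k - 1` let `M` be the matching of `Res`, `L` its edges which are
not contained in `X`. `|⋃ M| = k s`, and `⋃ M ∩ X` avoids `T ∩ X`, so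
`∑ e ∈ L, |e \ X| = k s - |⋃ M ∩ X| ≥ k s - |X| + |T ∩ X|`, and `|L| ≤ ∑ |e \ X| ≤ j` (`mat`). -/
def S_LT : Prop := ∀ (V : Type) [Fintype V] [DecidableEq V] (F : Finset (Finset V)) (k s : ℕ)
  (X : Finset V), Lc k s F X → ∀ T : Finset V, T.card ≤ k - 1 →
  ∃ L : Finset (Finset V), L ⊆ F ∧ PD L ∧ (∀ e ∈ L, ¬ e ⊆ X) ∧ (∀ e ∈ L, Disjoint e T) ∧
    k * s + (T ∩ X).card ≤ X.card + ∑ e ∈ L, (e \ X).card ∧
    L.card ≤ k * s + k - 1 - X.card

/-- L1. For `y ∈ X` choose `T ∋ y`, `T ⊆ X`, `|T| = k - 1` (`xk`) and `L` by `LT`: the sum of the traces is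
`≥ k s + k - 1 - |X|`. An edge `e ∋ y` which is not contained in `X` meets `⋃ L` (otherwise `insert e L`
violates `mat`; `e ∉ L` as `y ∈ T`), in a vertex `x ≠ y`. So the number is at most
`∑ x ∈ ⋃ L, dg F {x, y} ≤ k |L| (k s)^(k-2)` (`DEG`). -/
def S_L1 : Prop := ∀ (V : Type) [Fintype V] [DecidableEq V] (F : Finset (Finset V)) (k s : ℕ)
  (X : Finset V), Lc k s F X → ∀ y ∈ X,
  (F.filter (fun e => y ∈ e ∧ ¬ e ⊆ X)).card ≤ k * (k * s + k - 1 - X.card) * (k * s) ^ (k - 2)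

/-- L2. For `x ∉ X` let `T = insert x T'`, `T' ⊆ X`, `|T'| = k - 2`, and `L` by `LT`: the traces sum up to at
least `k s + k - 2 - |X|`. An edge `e ∋ x` with `|e \ X| ≥ 2` meets `⋃ L` (otherwise `insert e L` violates
`mat`), in a vertex different from `x`. Count as in `L1`. -/
def S_L2 : Prop := ∀ (V : Type) [Fintype V] [DecidableEq V] (F : Finset (Finset V)) (k s : ℕ)
  (X : Finset V), Lc k s F X → ∀ x, x ∉ X →
  (F.filter (fun e => x ∈ e ∧ 2 ≤ (e \ X).card)).card ≤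
    k * (k * s + k - 1 - X.card) * (k * s) ^ (k - 2)

/-- GRD (greedy covering). If `L` is a matching of edges not contained in `X` and `B` a set of vertices
outside `X` of degree more than `k (j+1) (k s)^(k-2)`, `j = k s + k - 1 - |X|`, then `L` can be extended
to a matching of edges not contained in `X` which covers `B`. Add edges one by one for uncovered `w ∈ B`:
as long as the matching has at most `j` edges (`mat`, each edge has trace `≥ 1`) it covers at most `k j`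
vertices, and at most `k j (k s)^(k-2)` edges at `w` meet it (`DEG`). -/
def S_GRD : Prop := ∀ (V : Type) [Fintype V] [DecidableEq V] (F : Finset (Finset V)) (k s : ℕ)
  (X B : Finset V) (L : Finset (Finset V)), Lc k s F X → L ⊆ F → PD L → (∀ e ∈ L, ¬ e ⊆ X) →
  Disjoint B X → (∀ w ∈ B, k * (k * s + k - 1 - X.card + 1) * (k * s) ^ (k - 2) < dg F {w}) →
  ∃ L' : Finset (Finset V), L ⊆ L' ∧ L' ⊆ F ∧ PD L' ∧ (∀ e ∈ L', ¬ e ⊆ X) ∧
    ∀ w ∈ B, ∃ e ∈ L', w ∈ e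

/-- L3. Let `B` be the set of all vertices outside `X` with degree more than `t0 = k (j+1) (k s)^(k-2)`.
`GRD` with `L = ∅`: `|B| ≤ j`. Let `F4` be the family of edges which contain a vertex outside `X ∪ B`. For a
matching `L ⊆ F4` extend it to cover `B` (`GRD`): the traces sum up to at least
`|L| + |B ∩ ⋃ L| + |B \ ⋃ L|`, so `|L| ≤ j - |B|`. Take `L` maximal: every edge of `F4` meets `⋃ L`, which
has at most `k (j - |B|)` vertices, and every vertex lies in at most `t0` edges of `F4`: in `X` by `L1`, in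
`B` by `L2` (such an edge has trace `≥ 2`), elsewhere by the definition of `B`. -/
def S_L3 : Prop := ∀ (V : Type) [Fintype V] [DecidableEq V] (F : Finset (Finset V)) (k s : ℕ)
  (X : Finset V), Lc k s F X → ∃ B : Finset V, Disjoint B X ∧ B.card ≤ k * s + k - 1 - X.card ∧
  (F.filter (fun e => ¬ e ⊆ X ∪ B)).card ≤
    k * (k * s + k - 1 - X.card - B.card) * (k * (k * s + k - 1 - X.card + 1) * (k * s) ^ (k - 2))

/-- L4. With `N = k s + k - 1`, `d = N - |X| - |B|`: `|F| ≤ C(N - d, k) + k d t0`, `t0` as in `L3`, and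
`C(N,k) - C(N-d,k) ≥ d C(N-d, k-1)`; `N - d ≥ |X| ≥ k s/2`, so
`C(N-d, k-1) ≥ (k s/4)^(k-1)/(k-1)! ≥ k t0` when `j + 1 ≤ δ' s` with `δ'` small. -/
def S_L4 : Prop := ∀ k : ℕ, 2 ≤ k → ∃ δ : ℝ, 0 < δ ∧ ∃ s0 : ℕ, ∀ s : ℕ, s0 ≤ s →
  ∀ (V : Type) [Fintype V] [DecidableEq V] (F : Finset (Finset V)) (X : Finset V), Lc k s F X →
  (1 - δ) * (k * s) ≤ (X.card : ℝ) → F.card ≤ (k * s + k - 1).choose k

/-- FIN. Let `δ0`, `ρ` come from `EXT` and `δ1` from `L4`, `δ = min δ0 δ1`; `ε` from `VST` for `δ`, `ρ`; `ζ`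
from `CLA` for `ε`. If `|F| < C(ks+k-1,k)` there is nothing to prove; otherwise `CLA`, `VST`, `EXT`,
`L4`. -/
def S_FIN : Prop := ∀ k : ℕ, 2 ≤ k → ∃ ζ : ℝ, 0 < ζ ∧ ∃ s0 : ℕ, ∀ s : ℕ, s0 ≤ s →
  ∀ (V : Type) [Fintype V] [DecidableEq V] (F : Finset (Finset V)), Hyp k s F → Rb k s ζ F →
  F.card ≤ (k * s + k - 1).choose k

/-- COV (from covering numbers). If every set meeting all edges has at least `(k - ζ) s` elements then
`Rb k s ζ F`: for `T` let `M` be a maximal matching among the edges disjoint from `T`; then `T ∪ ⋃ M`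
meets every edge, so `(k - ζ) s ≤ |T| + k |M|`. -/
def S_COV : Prop := ∀ (V : Type) [Fintype V] [DecidableEq V] (F : Finset (Finset V)) (k s : ℕ) (ζ : ℝ),
  1 ≤ k → UF k F → (∀ Y : Finset V, (∀ e ∈ F, ¬ Disjoint e Y) → (k - ζ) * s ≤ Y.card) → Rb k s ζ F

end Pool.Agent.Q54.TK
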