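import Pool.Agent.Q54.TK.StmB
import Pool.Agent.Q128.TK.GRD
import Pool.Agent.Q128.TK.L4
import Pool.Agent.Q153.TK.Deg
import Pool.Agent.Q203.TK.Ebp
import Pool.Agent.Q209.TK.Ccb
import Pool.Agent.Q209.TK.Keep
import Pool.Agent.Q224.TK.BAD
import Pool.Agent.Q224.TK.CLA
import Pool.Agent.Q224.TK.EBL
import Pool.Agent.Q224.TK.FIN
import Pool.Agent.Q224.TK.NIB
import Pool.Agent.Q224.TK.PM1
import Pool.Agent.Q275.TK.LVT
import Pool.Agent.Q275.TK.MAIN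
import Pool.Agent.Q275.TK.TL
import Pool.Agent.Q275.TK.TS2
import Pool.Agent.Q277.TK.Ext
import Pool.Agent.Q277.TK.Pm2
import Pool.Agent.Q277.TK.Pmu
import Pool.Agent.Q277.TK.Vst
import Pool.Agent.Q65.TK.L3
import Pool.Agent.Q65.TK.STB

/-!
# Project TK: all steps together
-/

set_option autoImplicit false

namespace Pool.Agent.Q54.TK

theorem t_DEG : S_DEG := Pool.Agent.Q153.TK.deg
theorem t_LDS : S_LDS := Pool.Agent.Q153.TK.lds t_DEG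
theorem t_EBL : S_EBL := Pool.Agent.Q224.TK.ebl
theorem t_EBP : S_EBP := Pool.Agent.Q203.TK.ebp
theorem t_TL : S_TL := Pool.Agent.Q275.TK.tl t_EBL t_EBP
theorem t_EIA : S_EIA := Pool.Agent.Q203.TK.eia t_EBP
theorem t_BAD : S_BAD := Pool.Agent.Q224.TK.bad t_LDS
theorem t_LVT : S_LVT := Pool.Agent.Q275.TK.lvt t_EBL t_TL t_LDS
theorem t_STB : S_STB := Pool.Agent.Q65.TK.stb t_EBL t_EIA t_BAD t_LVT t_LDS
theorem t_NIB : S_NIB := Pool.Agent.Q224.TK.nib t_LDS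
theorem t_KEEP : S_KEEP := Pool.Agent.Q209.TK.keep
theorem t_EKP : S_EKP := Pool.Agent.Q203.TK.ekp t_EBL t_EBP
theorem t_CCB : S_CCB := Pool.Agent.Q209.TK.ccb
theorem t_TS1 : S_TS1 := Pool.Agent.Q203.TK.ts1 t_EBL t_EBP t_CCB
theorem t_TS2 : S_TS2 := Pool.Agent.Q275.TK.ts2 t_EBL t_TL t_CCB t_LDS
theorem t_TS3 : S_TS3 := Pool.Agent.Q203.TK.ts3 t_EBL t_EBP
theorem t_MAIN : S_MAIN := Pool.Agent.Q275.TK.main t_EBL t_NIB t_KEEP t_STB t_EKP t_TS1 t_TS2 t_TS3 t_CCB t_LDS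
theorem t_CLA : S_CLA := Pool.Agent.Q224.TK.cla t_MAIN t_LDS
theorem t_PM1 : S_PM1 := Pool.Agent.Q224.TK.pm1
theorem t_PM2 : S_PM2 := Pool.Agent.Q277.TK.pm2
theorem t_PMU : S_PMU := Pool.Agent.Q277.TK.pmu t_PM1 t_PM2
theorem t_VST : S_VST := Pool.Agent.Q277.TK.vst
theorem t_EXT : S_EXT := Pool.Agent.Q277.TK.ext t_PMU
theorem t_LT : S_LT := Pool.Agent.Q153.TK.lt
theorem t_L1 : S_L1 := Pool.Agent.Q153.TK.l1 t_LT t_DEG
theorem t_L2 : S_L2 := Pool.Agent.Q153.TK.l2 t_LT t_DEG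
theorem t_GRD : S_GRD := Pool.Agent.Q128.TK.grd t_DEG
theorem t_L3 : S_L3 := Pool.Agent.Q65.TK.l3 t_GRD t_L1 t_L2
theorem t_L4 : S_L4 := Pool.Agent.Q128.TK.l4 t_L3
theorem t_FIN : S_FIN := Pool.Agent.Q224.TK.fin t_CLA t_VST t_EXT t_L4
theorem t_COV : S_COV := Pool.Agent.Q209.TK.cov

end Pool.Agent.Q54.TK
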