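import Mathlib

/-!
# Definitions for project TK (k-graphs with matching number `s` and covering number `s k`)

`F` is a finite family of finite sets on a finite vertex type `V`.
-/

set_option autoImplicit false

namespace Pool.Agent.Q54.TK

open Finset

/-- pairwise disjoint -/
def PD {V : Type} (M : Finset (Finset V)) : Prop :=
  ∀ e ∈ M, ∀ f ∈ M, e ≠ f → Disjoint e f

/-- `k`-uniform -/
def UF {V : Type} (k : ℕ) (F : Finset (Finset V)) : Prop := ∀ e ∈ F, e.card = k

/-- the matching number is at most `s` -/
def NuLe {V : Type} (F : Finset (Finset V)) (s : ℕ) : Prop :=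
  ∀ M : Finset (Finset V), M ⊆ F → PD M → M.card ≤ s

/-- `(k-1)`-resilience: deleting at most `k - 1` vertices leaves a matching of `s` edges -/
def Res {V : Type} (k s : ℕ) (F : Finset (Finset V)) : Prop :=
  ∀ T : Finset V, T.card ≤ k - 1 →
    ∃ M : Finset (Finset V), M ⊆ F ∧ PD M ∧ (∀ e ∈ M, Disjoint e T) ∧ M.card = s

/-- robustness: deleting any vertex set `T` leaves a matching with at least
`s - |T|/k - z s/k` edges -/
def Rb {V : Type} (k s : ℕ) (z : ℝ) (F : Finset (Finset V)) : Prop :=
  ∀ T : Finset V, ∃ M : Finset (Finset V), M ⊆ F ∧ PD M ∧ (∀ e ∈ M, Disjoint e T) ∧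
    (k : ℝ) * s ≤ k * M.card + T.card + z * s

/-- the standing hypotheses -/
structure Hyp {V : Type} (k s : ℕ) (F : Finset (Finset V)) : Prop where
  k2 : 2 ≤ k
  s1 : 1 ≤ s
  uf : UF k F
  nu : NuLe F s
  res : Res k s F

section
variable {V : Type} [DecidableEq V]

/-- the number of edges containing `R` -/
def dg (F : Finset (Finset V)) (R : Finset V) : ℕ := (F.filter (fun e => R ⊆ e)).card

/-- `(k s)^(k-1)` -/
noncomputable def qq (k s : ℕ) : ℝ := ((k : ℝ) * s) ^ (k - 1)

/-- the load of the vertex `v` -/
noncomputable def ld (k s : ℕ) (F : Finset (Finset V)) (v : V) : ℝ := (dg F {v} : ℝ) / qq k s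

/-- expectation of `f S` for the random set `S` which contains each `i` with probability `p i`
independently -/
noncomputable def EB {α : Type} [Fintype α] [DecidableEq α] (p : α → ℝ) (f : Finset α → ℝ) : ℝ :=
  ∑ S : Finset α, (∏ i, if i ∈ S then p i else 1 - p i) * f S

/-- the block of `v`: the edge of `M` containing `v`, or `{v}` -/
def bl (M : Finset (Finset V)) (v : V) : Finset V :=
  insert v ((M.filter (fun e => v ∈ e)).biUnion id)

/-- `e` is good: its vertices outside `T` lie in different blocks -/
def Gd (M : Finset (Finset V)) (T e : Finset V) : Prop :=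
  ∀ u ∈ e, ∀ v ∈ e, u ∉ T → v ∉ T → bl M u = bl M v → u = v

/-- `v` is available: it is in `T` or its block is selected (`g` is the set of selected blocks) -/
def Av (M : Finset (Finset V)) (T : Finset V) (g : Finset (Finset V)) (v : V) : Prop :=
  v ∈ T ∨ bl M v ∈ g

open Classical in
/-- indicator: `e` is good and all its vertices are available -/
noncomputable def IA (M : Finset (Finset V)) (T : Finset V) (g : Finset (Finset V)) (e : Finset V) : ℝ :=
  if Gd M T e ∧ ∀ u ∈ e, Av M T g u then 1 else 0

/-- the load of `v` after the selection -/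
noncomputable def LV (F M : Finset (Finset V)) (T : Finset V) (c : Finset V → ℝ)
    (g : Finset (Finset V)) (v : V) : ℝ :=
  ∑ e ∈ F.filter (fun e => v ∈ e), c e * IA M T g e

open Classical in
/-- the total weight of the good available edges with no overloaded vertex -/
noncomputable def WT (F M : Finset (Finset V)) (T : Finset V) (c : Finset V → ℝ) (η : ℝ)
    (g : Finset (Finset V)) : ℝ :=
  ∑ e ∈ F, c e * IA M T g e * (if ∀ u ∈ e, LV F M T c g u ≤ 1 + 2 * η then 1 else 0)

/-- probability of being available, given `T` -/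
noncomputable def aT (κ : ℝ) (T : Finset V) (u : V) : ℝ := if u ∈ T then 1 else κ

/-- the expected load of `v`, given `T` -/
noncomputable def ell (F : Finset (Finset V)) (c : Finset V → ℝ) (κ : ℝ) (T : Finset V) (v : V) : ℝ :=
  ∑ e ∈ F.filter (fun e => v ∈ e), c e * ∏ u ∈ e.erase v, aT κ T u

/-- the data of the selection stage -/
structure Sel (k s : ℕ) (F M : Finset (Finset V)) (T : Finset V) (C : ℝ) (c : Finset V → ℝ) : Prop where
  hyp : Hyp k s F
  sub : M ⊆ F
  pd : PD M
  av : ∀ e ∈ M, Disjoint e T
  c0 : ∀ e, 0 ≤ c e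
  cC : ∀ e, c e * qq k s ≤ C
  C1 : 1 ≤ C

/-- the density of the random set `T` -/
noncomputable def tt (k s : ℕ) (F : Finset (Finset V)) (l : ℝ) (v : V) : ℝ := max (ld k s F v - l) 0

/-- the total probability of being available -/
noncomputable def aa (k s : ℕ) (F : Finset (Finset V)) (l : ℝ) (v : V) : ℝ :=
  max (ld k s F v) l / (1 + l)

/-- the weights of the edges, given availability -/
noncomputable def cc (k s : ℕ) (F : Finset (Finset V)) (l : ℝ) (e : Finset V) : ℝ :=
  if e ∈ F then 1 / (qq k s * (1 + l) * ∏ v ∈ e, aa k s F l v) else 0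

/-- the missing `(k-1)`-sets at `v` inside `X` -/
def ms (k : ℕ) (F : Finset (Finset V)) (X : Finset V) (v : V) : ℕ :=
  (((X.erase v).powersetCard (k - 1)).filter (fun S => insert v S ∉ F)).card

/-- the local situation -/
structure Lc (k s : ℕ) (F : Finset (Finset V)) (X : Finset V) : Prop where
  hyp : Hyp k s F
  mat : ∀ L : Finset (Finset V), L ⊆ F → PD L → (∀ e ∈ L, ¬ e ⊆ X) →
    X.card + ∑ e ∈ L, (e \ X).card ≤ k * s + k - 1
  xk : k - 1 ≤ X.card

end

end Pool.Agent.Q54.TK
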