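import Pool.Agent.Q54.TK.All

/-!
# Project TK: the general bound for resilient families, and the bridge to matching numbers
-/

set_option autoImplicit false

namespace Pool.Agent.Q54.TK

open Finset

/-- every `(k-1)`-resilient family has at most `(1 + ε) s (k s)^(k-1)` edges -/
theorem gen (k : ℕ) (hk : 2 ≤ k) (ε : ℝ) (hε : 0 < ε) : ∃ s0 : ℕ, ∀ s : ℕ, s0 ≤ s →
    ∀ (V : Type) [Fintype V] [DecidableEq V] (F : Finset (Finset V)), Hyp k s F →
      (F.card : ℝ) ≤ (1 + ε) * (s * qq k s) := by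
  classical
  -- choose θ, η
  set η : ℝ := ε / 8 with hη
  set θ : ℝ := min (1 / 2) (ε / 8) with hθ
  have hη0 : 0 < η := by positivity
  have hθ0 : 0 < θ := lt_min (by norm_num) (by positivity)
  have hθ1 : θ ≤ 1 / 2 := min_le_left _ _
  have hθ2 : θ ≤ ε / 8 := min_le_right _ _
  obtain ⟨s0, H⟩ := t_NIB k θ η 1 hk hθ0 hη0 le_rfl
  refine ⟨s0, fun s hs V _ _ F hF => ?_⟩
  obtain ⟨hq, hks, hld, hsum, -, -⟩ := t_LDS V F k s hF
  have hS : Sel k s F (∅ : Finset (Finset V)) (univ : Finset V) 1 (fun _ => 1 / qq k s) := by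
    refine ⟨hF, by simp, ?_, by simp, fun e => by positivity, fun e => ?_, le_rfl⟩
    · intro e he; simp at he
    · rw [div_mul_cancel₀ _ hq.ne']
  obtain ⟨M', hM'F, hM'PD, -, hM'⟩ := H s hs V F ∅ univ (fun _ => 1 / qq k s) ∅ hS
  have hIA : ∀ e : Finset V, IA (∅ : Finset (Finset V)) (univ : Finset V) ∅ e = 1 := by
    intro e
    unfold IA
    rw [if_pos]
    exact ⟨fun u _ v _ h => absurd (mem_univ u) h, fun u _ => Or.inl (mem_univ u)⟩
  have hLV : ∀ v : V, LV F (∅ : Finset (Finset V)) (univ : Finset V) (fun _ => 1 / qq k s) ∅ v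
      = ld k s F v := by
    intro v
    unfold LV ld dg
    simp only [hIA, mul_one, sum_const, nsmul_eq_mul, singleton_subset_iff]
    rw [mul_one_div]
  have hWT : WT F (∅ : Finset (Finset V)) (univ : Finset V) (fun _ => 1 / qq k s) η ∅
      = F.card / qq k s := by
    unfold WT
    calc _ = ∑ e ∈ F, 1 / qq k s := by
          refine sum_congr rfl fun e _ => ?_
          rw [hIA, if_pos, mul_one, mul_one]
          intro u _
          rw [hLV]
          linarith [(hld u).2]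
      _ = _ := by rw [sum_const, nsmul_eq_mul, mul_one_div]
  rw [hWT] at hM'
  have hM's : (M'.card : ℝ) ≤ s := by exact_mod_cast hF.nu M' hM'F hM'PD
  have h1 : (1 - θ) / (1 + 2 * η) * (F.card / qq k s) ≤ s := hM'.trans hM's
  have hη1 : 0 < 1 + 2 * η := by positivity
  have h2 : (1 - θ) * (F.card / qq k s) ≤ s * (1 + 2 * η) := by
    rw [div_mul_eq_mul_div, div_le_iff₀ hη1] at h1
    linarith
  have hs0' : (0 : ℝ) ≤ s := Nat.cast_nonneg s
  -- (1 + 2η) ≤ (1 + ε)(1 - θ)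
  have h3 : 1 + 2 * η ≤ (1 + ε) * (1 - θ) := by
    have : ε * θ ≤ ε * (1 / 2) := mul_le_mul_of_nonneg_left hθ1 hε.le
    nlinarith
  have h4 : (1 - θ) * (F.card / qq k s) ≤ (1 - θ) * ((1 + ε) * s) := by
    calc (1 - θ) * (F.card / qq k s) ≤ s * (1 + 2 * η) := h2
      _ ≤ s * ((1 + ε) * (1 - θ)) := mul_le_mul_of_nonneg_left h3 hs0'
      _ = (1 - θ) * ((1 + ε) * s) := by ring
  have h5 : F.card / qq k s ≤ (1 + ε) * s := le_of_mul_le_mul_left h4 (by linarith)
  rw [div_le_iff₀ hq] at h5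
  calc (F.card : ℝ) ≤ (1 + ε) * s * qq k s := h5
    _ = (1 + ε) * (s * qq k s) := by ring

/-- `s` is the largest number of pairwise disjoint edges -/
def MN {V : Type} (F : Finset (Finset V)) (s : ℕ) : Prop :=
  IsGreatest {m : ℕ | ∃ M : Finset (Finset V),
    M ⊆ F ∧ (∀ e ∈ M, ∀ f ∈ M, e ≠ f → Disjoint e f) ∧ M.card = m} s

/-- resilience gives the standing hypotheses -/
theorem hyp_of {V : Type} [DecidableEq V] (k s : ℕ) (hk : 2 ≤ k) (hs : 1 ≤ s)
    (F : Finset (Finset V)) (hF : ∀ e ∈ F, e.card = k)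
    (hres : ∀ T : Finset V, T.card ≤ k - 1 → MN (F.filter (fun e => Disjoint e T)) s) :
    Hyp k s F := by
  classical
  refine ⟨hk, hs, hF, ?_, ?_⟩
  · intro M hM hPD
    have h0 := hres ∅ (by simp)
    refine h0.2 ⟨M, fun e he => ?_, hPD, rfl⟩
    rw [mem_filter]
    exact ⟨hM he, disjoint_empty_right _⟩
  · intro T hT
    obtain ⟨⟨M, hM, hPD, hc⟩, -⟩ := hres T hT
    exact ⟨M, fun e he => (mem_filter.mp (hM he)).1, hPD, fun e he => (mem_filter.mp (hM he)).2, hc⟩

end Pool.Agent.Q54.TK
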