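import Pool.Agent.Q54.TK.Def

/-!
# Project TK, part A: the loads are concentrated on `k s` vertices

Random deletion of a vertex set `T`, a maximum matching `M` of the rest, random deletion of edges of
`M`, and the weighted nibble on the available vertices. Every `S_X : Prop` is a statement; the docstring
gives its proof.
-/

set_option autoImplicit false

namespace Pool.Agent.Q54.TK

open Finset

/-- DEG (degrees): `deg R ≤ (k s)^(k - |R|)`. Induction on `k - |R|`. If `|R| = k` an edge containing `R`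
equals `R`. If `|R| ≤ k - 1` let `M` be the matching of `Res` for `T = R`. Every edge `e ⊇ R` meets some
`f ∈ M` (otherwise `insert e M` is a matching with `s + 1` edges; `e ∉ M` since `e` is nonempty), in a
vertex `x ∉ R`; so `dg F R ≤ ∑ x ∈ ⋃ M, dg F (insert x R) ≤ (k s) (k s)^(k - |R| - 1)`. -/
def S_DEG : Prop := ∀ (V : Type) [Fintype V] [DecidableEq V] (F : Finset (Finset V)) (k s : ℕ),
  Hyp k s F → ∀ R : Finset V, R.card ≤ k → dg F R ≤ (k * s) ^ (k - R.card)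

/-- LDS (loads): consequences of `DEG` for `R = {v}`, `R = {u, v}`, `R = ∅` (`dg F ∅ = |F|`), and double
counting `∑ v, dg F {v} = k |F|`; `k s ≤ qq` as `k ≥ 2`. -/
def S_LDS : Prop := ∀ (V : Type) [Fintype V] [DecidableEq V] (F : Finset (Finset V)) (k s : ℕ),
  Hyp k s F → 0 < qq k s ∧ (k : ℝ) * s ≤ qq k s ∧ (∀ v, 0 ≤ ld k s F v ∧ ld k s F v ≤ 1) ∧
    ∑ v, ld k s F v = k * F.card / qq k s ∧ ∑ v, ld k s F v ≤ k ^ 2 * s ∧
    (∀ u v, u ≠ v → (dg F {u, v} : ℝ) * (k * s) ≤ qq k s)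

/-- EBL (linearity and monotonicity of `EB`); the weights are `≥ 0` and their sum is
`∏ i, (p i + (1 - p i)) = 1` (`Finset.prod_add`, or `EBP` with `R = ∅`). -/
def S_EBL : Prop := ∀ (α : Type) [Fintype α] [DecidableEq α] (p : α → ℝ), (∀ i, 0 ≤ p i ∧ p i ≤ 1) →
  (∀ f g : Finset α → ℝ, EB p (fun S => f S + g S) = EB p f + EB p g) ∧
  (∀ f g : Finset α → ℝ, EB p (fun S => f S - g S) = EB p f - EB p g) ∧
  (∀ (c : ℝ) (f : Finset α → ℝ), EB p (fun S => c * f S) = c * EB p f) ∧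
  (∀ f g : Finset α → ℝ, (∀ S, f S ≤ g S) → EB p f ≤ EB p g) ∧
  (∀ c : ℝ, EB p (fun _ => c) = c) ∧
  (∀ (J : Type) (A : Finset J) (f : J → Finset α → ℝ),
    EB p (fun S => ∑ j ∈ A, f j S) = ∑ j ∈ A, EB p (f j))

/-- EBP (product formula): `∑ S, ∏ i, (w i S)` factorises (`Finset.prod_add` on `univ`, with
`p i * a i` resp. `(1 - p i) * b i` for `i ∈ R` and `p i` resp. `1 - p i` for `i ∉ R`). -/
def S_EBP : Prop := ∀ (α : Type) [Fintype α] [DecidableEq α] (p a b : α → ℝ) (R : Finset α),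
  EB p (fun S => ∏ i ∈ R, if i ∈ S then a i else b i) = ∏ i ∈ R, (p i * a i + (1 - p i) * b i)

open Classical in
/-- TL (tail bound by the second moment). Let `f j S = ∏ i ∈ R j, (if i ∈ S then a i else b i) ∈ [0,1]`,
`X = ∑ j ∈ A, c j f j`, `μ = E X ≤ m` (`EBP`). If `X > m + δ` then `(X - μ)^2 ≥ δ^2`, so the left side is at
most `E (X - μ)^2 = ∑ j j', c j c j' (E f_j f_j' - E f_j E f_j')`; the bracket is `0` if `R j`, `R j'` are
disjoint (`EBP` on the union) and at most `E f_j f_j' ≤ 1` otherwise. -/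
def S_TL : Prop := ∀ (α : Type) [Fintype α] [DecidableEq α] (p a b : α → ℝ) (J : Type) (A : Finset J)
  (R : J → Finset α) (c : J → ℝ) (m δ : ℝ), (∀ i, 0 ≤ p i ∧ p i ≤ 1) → (∀ i, 0 ≤ a i ∧ a i ≤ 1) →
  (∀ i, 0 ≤ b i ∧ b i ≤ 1) → (∀ j ∈ A, 0 ≤ c j) → 0 < δ →
  ∑ j ∈ A, c j * ∏ i ∈ R j, (p i * a i + (1 - p i) * b i) ≤ m →
  EB p (fun S => if m + δ < ∑ j ∈ A, c j * ∏ i ∈ R j, (if i ∈ S then a i else b i) then 1 else 0) * δ ^ 2 ≤
    ∑ j ∈ A, ∑ j' ∈ A.filter (fun j' => ¬ Disjoint (R j) (R j')), c j * c j'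

/-- EIA: the probability that a good edge is available. For a good `e` the indicator is
`∏ b ∈ ((e.filter (· ∉ T)).image (bl M)), (if b ∈ g then 1 else 0)`, the image has as many elements as
`e.filter (· ∉ T)` (`Gd`), and `EBP` with `a = 1`, `b = 0`. -/
def S_EIA : Prop := ∀ (V : Type) [Fintype V] [DecidableEq V] (M : Finset (Finset V)) (T e : Finset V)
  (κ : ℝ), Gd M T e → EB (fun _ : Finset V => κ) (fun g => IA M T g e) = ∏ u ∈ e, aT κ T u

open Classical in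
/-- BAD: there are at most `k (k s)^(k-1)` bad edges: a bad edge has two vertices `u ≠ v` outside `T` with
the same block; this block is not a singleton (`v ∈ bl M v = {u}` would give `u = v`), so `u`, `v` lie in
the same edge of `M` (`M` is pairwise disjoint). There are at most `s k^2` such pairs, each in at most
`qq/(k s)` edges (`LDS`). -/
def S_BAD : Prop := ∀ (V : Type) [Fintype V] [DecidableEq V] (F M : Finset (Finset V)) (T : Finset V)
  (k s : ℕ) (C : ℝ) (c : Finset V → ℝ), Sel k s F M T C c →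
  ((F.filter (fun e => ¬ Gd M T e)).card : ℝ) ≤ k * qq k s

/-- LVT (overload is rare). Use `TL` with `J = Finset V`, `A = {e ∈ F, v ∈ e, e good}`,
`R e = (((e.erase v).filter (· ∉ T)).image (bl M))`, `a = 1`, `b = 0`, `p = κ`, `m = 1 + η`, `δ = η`: the load
`LV` is at most `∑ e ∈ A, c e ∏ b ∈ R e, [b ∈ g]`, whose mean is `∑ e ∈ A, c e κ^|R e| ≤ ell ≤ 1 + η` (for good
`e` the map `bl M` is injective on `(e.erase v).filter (· ∉ T)`). If `R e` and `R e'` meet, there are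
`u ∈ e.erase v`, `u ∉ T`, and `u' ∈ e'.erase v` with `u' ∈ bl M u' = bl M u`, `u' ≠ v`; `|bl M u| ≤ k`; so the
double sum is at most `∑ e ∋ v, c e · k · k · (C/qq) (qq/(k s)) ≤ (C ld v)(k C/s)` (`LDS`). -/
def S_LVT : Prop := ∀ (V : Type) [Fintype V] [DecidableEq V] (F M : Finset (Finset V)) (T : Finset V)
  (k s : ℕ) (C : ℝ) (c : Finset V → ℝ) (κ η : ℝ) (v : V), Sel k s F M T C c → 0 ≤ κ → κ ≤ 1 → 0 < η →
  ell F c κ T v ≤ 1 + η →
  EB (fun _ : Finset V => κ) (fun g => if 1 + 2 * η < LV F M T c g v then 1 else 0) * η ^ 2 ≤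
    C ^ 2 * k * ld k s F v / s

/-- STB (expected weight after the selection). Pointwise
`WT ≥ ∑ e ∈ F, c e IA e - ∑ v, LV v [LV v > 1 + 2 η]`. Expectation of the first sum: `EIA` for good edges
(and the bad ones cost at most `(C/qq) k qq = C k`, `BAD`; `aT ≤ 1`). For the second:
`LV v ≤ ∑ e ∋ v, c e ≤ C ld v`; if `ell v ≤ 1 + η` use `LVT`: total at most
`∑ v, C ld v · C^2 k ld v/(s η^2) ≤ C^3 k^3/η^2` (`LDS`: `ld ≤ 1`, `∑ ld ≤ k^2 s`). -/
def S_STB : Prop := ∀ (V : Type) [Fintype V] [DecidableEq V] (F M : Finset (Finset V)) (T : Finset V)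
  (k s : ℕ) (C : ℝ) (c : Finset V → ℝ) (κ η : ℝ), Sel k s F M T C c → 0 ≤ κ → κ ≤ 1 → 0 < η →
  ∑ e ∈ F, c e * ∏ u ∈ e, aT κ T u - C * k - C ^ 3 * k ^ 3 / η ^ 2 -
      ∑ v, (if 1 + η < ell F c κ T v then C * ld k s F v else 0) ≤
    EB (fun _ : Finset V => κ) (fun g => WT F M T c η g)

/-- NIB (the nibble for one outcome). Apply `H248.Nib.nibble_T` (file `Pool/Agent/H248/Nib.lean`,
statement `H115R4.nibble` in `Pool/Agent/H115R4/Stubs.lean`) with `r = k`, `θ`, the index type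
`{e // e ∈ F}`, `A e = e` and the weights `w e = c e IA e [no overloaded vertex]/(1 + 2 η)`. Load of `v`: if
`LV v ≤ 1 + 2 η` it is at most `LV v/(1 + 2 η) ≤ 1`, otherwise `0`. `w e ≤ C/qq ≤ C/(k s)`, codegree
`≤ (C/qq)(qq/(k s)) = C/(k s)` (`LDS`), small for large `s`. The edges of the matching have `w e > 0`, so
`IA e = 1`. -/
def S_NIB : Prop := ∀ (k : ℕ) (θ η C : ℝ), 2 ≤ k → 0 < θ → 0 < η → 1 ≤ C → ∃ s0 : ℕ, ∀ s : ℕ, s0 ≤ s →
  ∀ (V : Type) [Fintype V] [DecidableEq V] (F M : Finset (Finset V)) (T : Finset V)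
    (c : Finset V → ℝ) (g : Finset (Finset V)), Sel k s F M T C c →
  ∃ M' : Finset (Finset V), M' ⊆ F ∧ PD M' ∧ (∀ e ∈ M', ∀ u ∈ e, Av M T g u) ∧
    (1 - θ) / (1 + 2 * η) * WT F M T c η g ≤ M'.card

/-- KEEP: `M'` and the unselected edges of `M` form a matching: an unselected `e ∈ M` contains no
available vertex `v` (`v ∉ T`, and `bl M v = e ∉ g`); so all these sets are pairwise disjoint and (being
nonempty) different. -/
def S_KEEP : Prop := ∀ (V : Type) [Fintype V] [DecidableEq V] (F M M' : Finset (Finset V))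
  (T : Finset V) (k s : ℕ) (C : ℝ) (c : Finset V → ℝ) (g : Finset (Finset V)), Sel k s F M T C c →
  M' ⊆ F → PD M' → (∀ e ∈ M', ∀ u ∈ e, Av M T g u) →
  M'.card + (M.filter (fun e => e ∉ g)).card ≤ s

/-- EKP: the expected number of unselected edges is `(1 - κ) |M|`. -/
def S_EKP : Prop := ∀ (V : Type) [Fintype V] [DecidableEq V] (M : Finset (Finset V)) (κ : ℝ),
  0 ≤ κ → κ ≤ 1 →
  EB (fun _ : Finset V => κ) (fun g => ((M.filter (fun e => e ∉ g)).card : ℝ)) = (1 - κ) * M.card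

/-- CCB (bounds for the weights): `aa v ≥ κ = l/(1+l)`, so `cc e * qq = 1/((1+l) ∏ aa) ≤ κ^(-k)`. -/
def S_CCB : Prop := ∀ (V : Type) [Fintype V] [DecidableEq V] (F : Finset (Finset V)) (k s : ℕ) (l : ℝ),
  Hyp k s F → 0 < l → l ≤ 1 →
  (∀ e, 0 ≤ cc k s F l e) ∧ (∀ e, cc k s F l e * qq k s ≤ ((1 + l) / l) ^ k) ∧ 1 ≤ ((1 + l) / l) ^ k ∧
  (∀ v, 0 ≤ tt k s F l v ∧ tt k s F l v ≤ 1) ∧ (∀ v, 0 < aa k s F l v) ∧
  (∀ v, tt k s F l v * 1 + (1 - tt k s F l v) * (l / (1 + l)) = aa k s F l v)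

/-- TS1: expectation over `T` of the expected weight: `EBP` edge by edge (`a = 1`, `b = κ`, `CCB`). -/
def S_TS1 : Prop := ∀ (V : Type) [Fintype V] [DecidableEq V] (F : Finset (Finset V)) (k s : ℕ) (l : ℝ),
  Hyp k s F → 0 < l → l ≤ 1 →
  EB (tt k s F l) (fun T => ∑ e ∈ F, cc k s F l e * ∏ u ∈ e, aT (l / (1 + l)) T u) =
    F.card / (qq k s * (1 + l))

/-- TS2: `P(ell v > 1 + η) ≤ C^2 ld v/(s η^2)` with `C = ((1+l)/l)^k`. `TL` with `A = {e ∈ F, v ∈ e}`,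
`R e = e.erase v`, `a = 1`, `b = κ`, `m = 1`, `δ = η`: the mean is
`∑ e ∋ v, cc e ∏ u ∈ e.erase v, aa u = ld v/((1+l) aa v) = ld v/max (ld v) l ≤ 1`; the double sum is at most
`∑ e ∋ v, cc e · k · (C/qq)(qq/(k s)) ≤ C ld v · C/s`. -/
def S_TS2 : Prop := ∀ (V : Type) [Fintype V] [DecidableEq V] (F : Finset (Finset V)) (k s : ℕ)
  (l η : ℝ) (v : V), Hyp k s F → 0 < l → l ≤ 1 → 0 < η →
  EB (tt k s F l) (fun T => if 1 + η < ell F (cc k s F l) (l / (1 + l)) T v then 1 else 0) * η ^ 2 ≤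
    (((1 + l) / l) ^ k) ^ 2 * ld k s F v / s

/-- TS3: `E |T| = ∑ v, tt v`. -/
def S_TS3 : Prop := ∀ (α : Type) [Fintype α] [DecidableEq α] (p : α → ℝ), (∀ i, 0 ≤ p i ∧ p i ≤ 1) →
  EB p (fun T => (T.card : ℝ)) = ∑ v, p v

/-- MAIN. Choose for every `T` the matching `M T` of `Rb`. With `κ = l/(1+l)`, `C = ((1+l)/l)^k`,
`γ = (1-θ)/(1+2η)`: for every `T` and every `g`, `γ WT + |M T \ g| ≤ s` (`NIB`, `KEEP`). Expectation over
`g` (`STB`, `EKP`): `γ (∑ cc ∏ aT - C k - C^3 k^3/η^2 - ∑ v, [ell v > 1+η] C ld v) + (1-κ)|M T| ≤ s`, and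
`|M T| ≥ s - |T|/k - z s/k`. Expectation over `T` (`TS1`, `TS2`, `TS3`, density `tt`):
`γ (|F|/(qq (1+l)) - C k - C^3 k^3/η^2 - C^3 k^2/η^2) + (1-κ)(s - ∑ tt/k - z s/k) ≤ s`. Multiply by
`1 + l` (`(1-κ)(1+l) = 1`) and by `k`, with `k |F|/qq = ∑ ld` and `ld - tt = min ld l`:
`∑ min (ld v) l ≤ k l s + z s + (1-γ) ∑ ld + K`, `K` a constant, `∑ ld ≤ k^2 s`. Choose `θ`, `η` with
`(1-γ) k^2 ≤ ε/2`, then `s` large. -/
def S_MAIN : Prop := ∀ k : ℕ, 2 ≤ k → ∀ l ε : ℝ, 0 < l → l ≤ 1 → 0 < ε → ∃ s0 : ℕ, ∀ s : ℕ, s0 ≤ s →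
  ∀ (V : Type) [Fintype V] [DecidableEq V] (F : Finset (Finset V)), Hyp k s F →
  ∀ z : ℝ, Rb k s z F → ∑ v, min (ld k s F v) l ≤ (k * l + ε + z) * s

/-- CLA: almost all edges lie in a set of `(1+ε) k s` vertices: `P = {v | ld v ≥ l}`, with `l` small,
then `ε'`, `ζ` small against `l`. `|P| l ≤ (k l + ε' + ζ) s`, and the number of edges not inside `P` is at
most `∑ v ∉ P, dg F {v} = qq ∑ v ∉ P, ld v ≤ (k s)^(k-1) (k l + ε' + ζ) s`. -/
def S_CLA : Prop := ∀ k : ℕ, 2 ≤ k → ∀ ε : ℝ, 0 < ε → ∃ ζ : ℝ, 0 < ζ ∧ ∃ s0 : ℕ, ∀ s : ℕ, s0 ≤ s →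
  ∀ (V : Type) [Fintype V] [DecidableEq V] (F : Finset (Finset V)), Hyp k s F → Rb k s ζ F →
  ∃ P : Finset V, (P.card : ℝ) ≤ (1 + ε) * (k * s) ∧
    ((F.filter (fun e => ¬ e ⊆ P)).card : ℝ) ≤ ε * (s : ℝ) ^ k

end Pool.Agent.Q54.TK
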